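import Pool.Agent.Lib.MP_e5c236_nt_AlmostAll.Main

/-!
MP_e5c236, Q1: the if half for almost all `n`.
-/

namespace Pool.Agent.Results.MP_e5c236_nt.AlmostAll

open Pool.Agent.Lib.MP_e5c236 Filter Topology

theorem result :
    Tendsto (fun N : ℕ => (Nat.card {n : ℕ // 1 ≤ n ∧ n ≤ N ∧ IsRep 4 4 n} : ℝ) / N)
      atTop (𝓝 1) :=
  Pool.Agent.Lib.MP_e5c236_nt_AlmostAll.main.2.2.1

end Pool.Agent.Results.MP_e5c236_nt.AlmostAll
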