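import Pool.Agent.Lib.MP_e5c236.Lower

/-!
MP_e5c236, Q2: `4 ≤ G'(4) ≤ 5`.
-/

namespace Pool.Agent.Results.MP_e5c236_nt.GPrimeFour

open Pool.Agent.Lib.MP_e5c236

theorem result : 4 ≤ GPrime 4 ∧ GPrime 4 ≤ 5 := GPrime_bounds

end Pool.Agent.Results.MP_e5c236_nt.GPrimeFour
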