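import Pool.Agent.Lib.MP_e5c236_nt_cls.Final

/-!
MP_e5c236, Q1: all positive multiples of the odd primes in 866 of 1024 classes.
-/

namespace Pool.Agent.Results.MP_e5c236_nt.PrimeClasses

open Pool.Agent.Lib.MP_e5c236 Pool.Agent.Lib.MP_e5c236_nt_cls
open scoped NumberTheorySymbols

theorem result :
    (∀ p m : ℕ, p.Prime → p ≠ 2 → 0 < m →
      GoodPattern (p % 8) J(p | 3) J(p | 5) J(p | 7) J(p | 11) J(p | 13) J(p | 19) J(p | 29)
        J(p | 83) → IsRep 4 4 (m * p)) ∧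
    ((Finset.univ : Finset (Fin 4 × (Fin 8 → Bool))).filter fun x =>
      GoodPattern (2 * x.1.val + 1) (sg (x.2 0)) (sg (x.2 1)) (sg (x.2 2)) (sg (x.2 3))
        (sg (x.2 4)) (sg (x.2 5)) (sg (x.2 6)) (sg (x.2 7))).card = 866 :=
  ⟨fun _ _ hp hp2 hm h =>
      Pool.Agent.Lib.MP_e5c236_nt_AlmostAll.isRep_mul (isRep_of_good hp hp2 h) hm,
    card_good⟩

end Pool.Agent.Results.MP_e5c236_nt.PrimeClasses
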