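import Pool.Agent.Lib.MP_e5c236_nt_AlmostAll.Main

/-!
MP_e5c236, Q1 is equivalent to its restriction to primes.
-/

namespace Pool.Agent.Results.MP_e5c236_nt.ReductionToPrimes

open Pool.Agent.Lib.MP_e5c236

theorem result :
    (∀ n : ℕ, 0 < n →
      (IsRep 4 4 n ↔ n ∉ ({1, 2, 3, 5, 6, 7, 11, 13, 14, 15, 17, 22, 23} : Finset ℕ))) ↔
    (∀ p : ℕ, p.Prime → p ∉ ({2, 3, 5, 7, 11, 13, 17, 23} : Finset ℕ) → IsRep 4 4 p) :=
  Pool.Agent.Lib.MP_e5c236_nt_AlmostAll.q1_iff_primes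

end Pool.Agent.Results.MP_e5c236_nt.ReductionToPrimes
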